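import Pool.Agent.H56.E.Base
import Pool.Agent.H56.E.H56.G3.TI

/-!
# Theorem (G), row BP: the choice of the threshold
-/

set_option autoImplicit false

open Finset Pool.Agent.H6.N4D Pool.Agent.H78.GX.H6.N4D Pool.Agent.H93.EB Pool.Agent.H93.GS Pool.Agent.H56.G3 Pool.Agent.H56.E.H56.G3

namespace Pool.Agent.H56.E.H55.G3

open Pool.Agent.H55.G3 Pool.Agent.H78.GX.H55.G3

theorem BP_band {κ₀ x : ℝ} (h : 0 < κ₀) {l l' : ℕ} (h1 : κ₀ / 4 ^ (l + 1) ≤ x)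
    (h2 : x < κ₀ / 4 ^ l') : l' ≤ l := by
  by_contra hc
  push Not at hc
  have h3 : (4 : ℝ) ^ (l + 1) ≤ 4 ^ l' := pow_le_pow_right₀ (by norm_num) hc
  have h4 : κ₀ / 4 ^ l' ≤ κ₀ / 4 ^ (l + 1) := div_le_div_of_nonneg_left h.le (by positivity) h3
  linarith

open Classical in
theorem BP_card (g : Ex) (κ₀ : ℝ) (h : 0 < κ₀) (L : ℕ) :
    ((range L).filter fun l => ∃ i < g.k, κ₀ / 4 ^ (l + 1) ≤ ‖g.c i‖ ∧
      ‖g.c i‖ < κ₀ / 4 ^ l).card ≤ g.k := by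
  have hex : ∀ l : ℕ, ∃ i : ℕ, (∃ i < g.k, κ₀ / 4 ^ (l + 1) ≤ ‖g.c i‖ ∧
      ‖g.c i‖ < κ₀ / 4 ^ l) → i < g.k ∧ κ₀ / 4 ^ (l + 1) ≤ ‖g.c i‖ ∧ ‖g.c i‖ < κ₀ / 4 ^ l := by
    intro l
    by_cases h1 : ∃ i < g.k, κ₀ / 4 ^ (l + 1) ≤ ‖g.c i‖ ∧ ‖g.c i‖ < κ₀ / 4 ^ l
    · obtain ⟨i, hi⟩ := h1
      exact ⟨i, fun _ => hi⟩
    · exact ⟨0, fun h2 => absurd h2 h1⟩
  choose f hf using hex
  calc ((range L).filter fun l => ∃ i < g.k, κ₀ / 4 ^ (l + 1) ≤ ‖g.c i‖ ∧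
      ‖g.c i‖ < κ₀ / 4 ^ l).card ≤ (range g.k).card := by
        refine card_le_card_of_injOn f (fun l hl => ?_) fun l hl l' hl' hll => ?_
        · have h1 := (mem_filter.1 (mem_coe.1 hl)).2
          exact mem_coe.2 (mem_range.2 (hf l h1).1)
        · have h1 := hf l (mem_filter.1 (mem_coe.1 hl)).2
          have h2 := hf l' (mem_filter.1 (mem_coe.1 hl')).2
          rw [hll] at h1
          exact le_antisymm (BP_band h h2.2.1 h1.2.2) (BP_band h h1.2.1 h2.2.2)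
    _ = g.k := card_range _

theorem pf_BP : T_BP := by
  classical
  intro S G κ₀ r₀ L hκ hL hN hk
  by_contra hcon
  push Not at hcon
  have hL0 : (0 : ℝ) < L := by exact_mod_cast hL
  have h2 : (r₀ : ℝ) * S.N < ∑ l ∈ range L, S.cnt (fun t => ∃ i < (G t).k,
      κ₀ / 4 ^ (l + 1) ≤ ‖(G t).c i‖ ∧ ‖(G t).c i‖ < κ₀ / 4 ^ l) := by
    calc (r₀ : ℝ) * S.N = ∑ _l ∈ range L, (r₀ : ℝ) / L * S.N := by
          rw [sum_const, card_range, nsmul_eq_mul]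
          field_simp
      _ < _ := sum_lt_sum_of_nonempty ⟨0, mem_range.2 hL⟩ fun l hl => hcon l (mem_range.1 hl)
  have h3 : ∑ l ∈ range L, S.cnt (fun t => ∃ i < (G t).k,
      κ₀ / 4 ^ (l + 1) ≤ ‖(G t).c i‖ ∧ ‖(G t).c i‖ < κ₀ / 4 ^ l) =
      ∑ t ∈ S.I, (((range L).filter fun l => ∃ i < (G t).k, κ₀ / 4 ^ (l + 1) ≤ ‖(G t).c i‖ ∧
        ‖(G t).c i‖ < κ₀ / 4 ^ l).card : ℝ) := by
    unfold Par.cnt Par.fl
    simp only [← Nat.cast_sum]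
    congr 1
    simp only [card_filter]
    rw [sum_comm]
    refine sum_congr rfl fun t _ => sum_congr rfl fun l _ => ?_
    by_cases h : ∃ i < (G t).k, κ₀ / 4 ^ (l + 1) ≤ ‖(G t).c i‖ ∧ ‖(G t).c i‖ < κ₀ / 4 ^ l
    · rw [if_pos h, if_pos h]
    · rw [if_neg h, if_neg h]
  have h4 : ∑ t ∈ S.I, (((range L).filter fun l => ∃ i < (G t).k, κ₀ / 4 ^ (l + 1) ≤ ‖(G t).c i‖ ∧
        ‖(G t).c i‖ < κ₀ / 4 ^ l).card : ℝ) ≤ r₀ * S.N := by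
    calc _ ≤ ∑ _t ∈ S.I, (r₀ : ℝ) := by
          refine sum_le_sum fun t ht => ?_
          exact_mod_cast (BP_card (G t) κ₀ hκ L).trans (hk t ht)
      _ = r₀ * S.N := by
          rw [sum_const, nsmul_eq_mul, Par.card_I hN, mul_comm]
  rw [h3] at h2
  linarith

end Pool.Agent.H56.E.H55.G3
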